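import Pool.Agent.PMC.Main

/-!
# MP_299203_co: strong equivalence of the cube tiling codes of P-matrices

For every alphabet and every dimension `d` the codes of the linear complementarity problems with a P-matrix,
and all codes obtained from them by composition, are cube tiling codes, and any two of them are strongly
equivalent. The simple codes are among them.
-/

namespace Pool.Agent.Results.MP_299203_co.PMatrixCodes

open CTL PMC

theorem result {S : Type*} (co : S → S) (hco : ∀ s, co (co s) = s) (hne : ∀ s, co s ≠ s)
    {d : ℕ} :
    (∀ c : Fin d → S, PClass (fun _ i => c i : Pat S d)) ∧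
      ∀ p p' : Pat S d, PClass p → PClass p' →
        IsTiling co (cod co p) ∧ StronglyEquivalent co (cod co p) (cod co p') :=
  ⟨simple_mem, fun _ _ hp hp' => ⟨main_tiling hco hne hp, main_equiv hco hne hp hp'⟩⟩

end Pool.Agent.Results.MP_299203_co.PMatrixCodes
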