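import Pool.Agent.CTL.Final

/-!
# MP_299203_co: strong equivalence of cube tiling codes with many sign symmetries

Any two cube tiling codes in `S ^ d` which both have at least `2 ^ d / 16` sign symmetries are strongly
equivalent; in dimension seven these are the codes with at least eight sign symmetries.
-/

namespace Pool.Agent.Results.MP_299203_co.SignSymmetric

open CTL

theorem result {S : Type*} (co : S → S) (hco : ∀ s, co (co s) = s) (hne : ∀ s, co s ≠ s)
    {d : ℕ} {V W : Set (Fin d → S)} (hV : IsTiling co V) (hW : IsTiling co W)
    (hV' : 2 ^ d ≤ 16 * (signSym co V).ncard) (hW' : 2 ^ d ≤ 16 * (signSym co W).ncard) :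
    StronglyEquivalent co V W :=
  main co hco hne hV hW hV' hW'

end Pool.Agent.Results.MP_299203_co.SignSymmetric
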